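import Pool.Graph.R_pool_sql_team_seeded_620a6dc7.Results.MP_c254db_co.UnboundedRatio

/-!
# Cubic graphs with resistance exactly two and flow resistance exactly `N`

For every `N ≥ 1` there is a connected simple bridgeless cubic graph on `12 N - 2` vertices with
resistance exactly `2` and flow resistance exactly `N`.
-/

set_option autoImplicit false
set_option maxRecDepth 100000

namespace Pool.Agent.Results.MP_c254db_co.ExactValues

open Finset
open Pool.Agent.Results.MP_c254db_co.UnboundedRatio

/-- The graph is connected: every property of the vertices which has the same truth value at the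
two ends of every edge has the same truth value at all vertices. -/
def Connected {V : Type} (G : CubicGraph V) : Prop :=
  ∀ f : V → Prop, (∀ d, f (G.inv d).1 ↔ f d.1) → ∀ x y, f x ↔ f y

/-- The graph has neither loops nor parallel edges. -/
def Simple {V : Type} (G : CubicGraph V) : Prop :=
  (∀ d, (G.inv d).1 ≠ d.1) ∧ ∀ v i j, i ≠ j → (G.inv (v, i)).1 ≠ (G.inv (v, j)).1

/-! ### A 3-edge-colouring gives a nowhere-zero 4-flow -/

section tutte
variable {V : Type} [Fintype V] [DecidableEq V] (G : CubicGraph V)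

/-- two fixed-point free involutions: an orientation of the alternating cycles -/
theorem orient {D : Type} [Fintype D] [DecidableEq D] (s t : Equiv.Perm D) (P : D → Prop)
    (hs : s * s = 1) (ht : t * t = 1) (hs' : ∀ d, s d ≠ d) (ht' : ∀ d, P d → t d ≠ d)
    (hPs : ∀ d, P (s d) ↔ P d) (hPt : ∀ d, P (t d) ↔ P d) :
    ∃ f : D → Bool, ∀ d, P d → f (s d) = ! f d ∧ f (t d) = ! f d := by
  classical
  set π : Equiv.Perm D := s * t with hπ
  have sinv : s⁻¹ = s := inv_eq_of_mul_eq_one_left hs
  have tinv : t⁻¹ = t := inv_eq_of_mul_eq_one_left ht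
  have ss : ∀ d, s (s d) = d := fun d => by rw [← Equiv.Perm.mul_apply, hs]; rfl
  have tt : ∀ d, t (t d) = d := fun d => by rw [← Equiv.Perm.mul_apply, ht]; rfl
  have conj : s * π * s⁻¹ = π⁻¹ := by
    rw [hπ, mul_inv_rev, sinv, tinv, ← mul_assoc, hs, one_mul]
  have conjn : ∀ n : ℤ, s * π ^ n = π ^ (-n) * s := by
    intro n
    have h1 := conj_zpow (a := s) (b := π) (i := n)
    rw [conj, inv_zpow', ] at h1
    rw [h1, inv_mul_cancel_right]
  have hPπ : ∀ (n : ℤ) d, P ((π ^ n) d) ↔ P d := by
    have h1 : ∀ d, P (π d) ↔ P d := fun d => by rw [hπ, Equiv.Perm.mul_apply, hPs, hPt]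
    have h2 : ∀ d, P (π⁻¹ d) ↔ P d := fun d => by
      rw [← h1 (π⁻¹ d), ← Equiv.Perm.mul_apply, mul_inv_cancel, Equiv.Perm.one_apply]
    intro n
    induction n using Int.induction_on with
    | zero => intro d; simp
    | succ i ih => intro d; rw [zpow_add_one, Equiv.Perm.mul_apply, ih, h1]
    | pred i ih => intro d; rw [zpow_sub_one, Equiv.Perm.mul_apply, ih, h2]
  have key : ∀ d, P d → ¬ π.SameCycle d (s d) := by
    rintro d hd ⟨k, hk⟩
    obtain ⟨m, rfl | rfl⟩ := Int.even_or_odd' k
    · -- `k = 2 m`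
      have e1 : (π ^ m) ((π ^ m) d) = s d := by
        rw [← Equiv.Perm.mul_apply, ← zpow_add, ← two_mul, hk]
      have e2 : s ((π ^ m) d) = (π ^ (-m)) (s d) := by
        rw [← Equiv.Perm.mul_apply, conjn, Equiv.Perm.mul_apply]
      rw [← e1, ← Equiv.Perm.mul_apply (π ^ (-m)), ← zpow_add, neg_add_cancel, zpow_zero,
        Equiv.Perm.one_apply] at e2
      exact hs' _ e2
    · have e1 : (π ^ m) (π ((π ^ m) d)) = s d := by
        rw [← hk, ← Equiv.Perm.mul_apply, ← Equiv.Perm.mul_apply]
        congr 1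
        rw [← zpow_add_one, ← zpow_add]
        congr 1
        ring
      have e2 : s ((π ^ m) d) = (π ^ (-m)) (s d) := by
        rw [← Equiv.Perm.mul_apply, conjn, Equiv.Perm.mul_apply]
      rw [← e1, ← Equiv.Perm.mul_apply (π ^ (-m)), ← zpow_add, neg_add_cancel, zpow_zero,
        Equiv.Perm.one_apply, hπ, Equiv.Perm.mul_apply] at e2
      have e3 := s.injective e2
      exact ht' _ ((hPπ m d).2 hd) e3.symm
  obtain ⟨e, he⟩ := Countable.exists_injective_nat (Quotient (Equiv.Perm.SameCycle.setoid π))
  let m : D → ℕ := fun d => e (Quotient.mk _ d)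
  have hm : ∀ x y, π.SameCycle x y → m x = m y := fun x y h => by
    change e _ = e _
    congr 1
    exact Quotient.sound h
  have hm' : ∀ x y, m x = m y → π.SameCycle x y := fun x y h => Quotient.exact (he h)
  refine ⟨fun d => decide (m d < m (s d)), ?_⟩
  have hsneg : ∀ d, P d → decide (m (s d) < m (s (s d))) = ! decide (m d < m (s d)) := by
    intro d hd
    have hne : m d ≠ m (s d) := fun h => key d hd (hm' _ _ h)
    rw [ss]
    rcases lt_or_gt_of_ne hne with h | h
    · simp [h, not_lt.2 h.le]
    · simp [h, not_lt.2 h.le]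
  intro d hd
  refine ⟨hsneg d hd, ?_⟩
  -- `t d = s (π d)` and `m` is constant along `π`
  have h1 : m (π d) = m d := hm _ _ ⟨-1, by simp⟩
  have h2 : m (s (π d)) = m (s d) := by
    apply hm
    refine ⟨1, ?_⟩
    have : s (π d) = π⁻¹ (s d) := by
      have := congrArg (fun σ : Equiv.Perm D => σ (s d)) conj
      simp only [Equiv.Perm.mul_apply, sinv, ss] at this
      exact this
    rw [this]; simp
  have h3 : t d = s (π d) := by rw [hπ, Equiv.Perm.mul_apply, ss]
  have h4 := hsneg (π d) (by simpa using (hPπ 1 d).2 hd)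
  rw [h1, h2] at h4
  have h5 : m (s (s (π d))) = m d := by rw [ss, h1]
  rw [h3]
  simp only [h2, h5] at h4 ⊢
  exact h4

/-- the edges that do not have the colour `y` carry a flow with values `± 1` -/
theorem unit_flow (c : V × Fin 3 → Fin 3) (h1 : ∀ d, c (G.inv d) = c d)
    (h2 : ∀ v i j, i ≠ j → c (v, i) ≠ c (v, j)) (y : Fin 3) :
    ∃ φ : V × Fin 3 → ℤ, (∀ d, φ (G.inv d) = - φ d) ∧ (∀ v, ∑ i, φ (v, i) = 0) ∧
      ∀ d, (c d = y → φ d = 0) ∧ (c d ≠ y → φ d = 1 ∨ φ d = -1) := by
  classical
  -- the third half-edge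
  have hex : ∀ v i, ∃ j, (c (v, i) = y → j = i) ∧ (c (v, i) ≠ y → j ≠ i ∧ c (v, j) ≠ y) := by
    intro v i
    by_cases hi : c (v, i) = y
    · exact ⟨i, fun _ => rfl, fun h => absurd hi h⟩
    · have inj : Function.Injective (fun j => c (v, j)) := fun a b hab => by
        by_contra hne; exact h2 v a b hne hab
      have sur := Finite.surjective_of_injective inj
      have hz : ∃ z : Fin 3, z ≠ c (v, i) ∧ z ≠ y := by
        have : ∀ a b : Fin 3, ∃ z : Fin 3, z ≠ a ∧ z ≠ b := by decide
        exact this _ _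
      obtain ⟨z, z1, z2⟩ := hz
      obtain ⟨j, hj⟩ := sur z
      refine ⟨j, fun h => absurd h hi, fun _ => ⟨?_, ?_⟩⟩
      · rintro rfl; exact z1 hj.symm
      · have : c (v, j) = z := hj
        rw [this]; exact z2
  choose o o1 o2 using hex
  have uniq : ∀ v i j k, i ≠ j → j ≠ k → i ≠ k → c (v, i) = y ∨ c (v, j) = y ∨ c (v, k) = y := by
    intro v i j k a1 a2 a3
    have b1 := h2 v i j a1
    have b2 := h2 v j k a2
    have b3 := h2 v i k a3
    have : ∀ p q r y : Fin 3, p ≠ q → q ≠ r → p ≠ r → p = y ∨ q = y ∨ r = y := by decide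
    exact this _ _ _ _ b1 b2 b3
  have oo : ∀ v i, o v (o v i) = i := by
    intro v i
    by_cases hi : c (v, i) = y
    · rw [o1 v i hi, o1 v i hi]
    · obtain ⟨a, b⟩ := o2 v i hi
      obtain ⟨a', b'⟩ := o2 v (o v i) b
      by_contra hne
      rcases uniq v i (o v i) (o v (o v i)) a.symm a'.symm (Ne.symm hne) with h | h | h
      · exact hi h
      · exact b h
      · exact b' h
  let s : Equiv.Perm (V × Fin 3) := ⟨G.inv, G.inv, G.inv_inv, G.inv_inv⟩
  let t : Equiv.Perm (V × Fin 3) := ⟨fun d => (d.1, o d.1 d.2), fun d => (d.1, o d.1 d.2),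
    fun d => by simp [oo], fun d => by simp [oo]⟩
  obtain ⟨f, hf⟩ := orient s t (fun d => c d ≠ y)
    (by ext1 d; exact G.inv_inv d)
    (by ext1 d; change (d.1, o d.1 (o d.1 d.2)) = d; rw [oo])
    (fun d => G.inv_ne d)
    (by
      rintro ⟨v, i⟩ hd h
      have : o v i = i := congrArg Prod.snd h
      exact (o2 v i hd).1 this)
    (fun d => by change c (G.inv d) ≠ y ↔ _; rw [h1])
    (by
      rintro ⟨v, i⟩
      change c (v, o v i) ≠ y ↔ c (v, i) ≠ y
      by_cases hi : c (v, i) = y
      · rw [o1 v i hi]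
      · exact ⟨fun _ => hi, fun _ => (o2 v i hi).2⟩)
  refine ⟨fun d => if c d = y then 0 else if f d then 1 else -1, ?_, ?_, ?_⟩
  · intro d
    by_cases hd : c d = y
    · simp [h1, hd]
    · have h := (hf d hd).1
      change f (G.inv d) = _ at h
      simp only [h1, hd, if_false, h]
      cases f d <;> simp
  · intro v
    apply Finset.sum_involution (fun i _ => o v i)
    · intro i _
      by_cases hi : c (v, i) = y
      · rw [o1 v i hi]; simp [hi]
      · have h := (hf (v, i) hi).2
        change f (v, o v i) = _ at h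
        simp only [hi, (o2 v i hi).2, if_false, h]
        cases f (v, i) <;> simp
    · intro i _ hi
      have : c (v, i) ≠ y := fun h => hi (by simp [h])
      exact (o2 v i this).1
    · intro i _; exact mem_univ _
    · intro i _; exact oo v i
  · intro d
    refine ⟨fun h => by simp [h], fun h => ?_⟩
    simp only [h, if_false]
    cases f d <;> simp

/-- A 3-edge-colouring gives a nowhere-zero 4-flow. -/
theorem flow_of_colouring (c : V × Fin 3 → Fin 4) (hc : G.ProperColouring c) (x : Fin 4)
    (hx : ∀ d, c d ≠ x) : ∃ φ, G.FourFlow φ ∧ ∀ d, φ d ≠ 0 := by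
  have hs : ∃ g : Fin 4 → Fin 3, ∀ a b, a ≠ x → b ≠ x → g a = g b → a = b := by
    have : ∀ x : Fin 4, ∃ g : Fin 4 → Fin 3, ∀ a b, a ≠ x → b ≠ x → g a = g b → a = b := by
      intro x
      fin_cases x
      · exact ⟨![0, 0, 1, 2], by decide⟩
      · exact ⟨![0, 0, 1, 2], by decide⟩
      · exact ⟨![0, 1, 0, 2], by decide⟩
      · exact ⟨![0, 1, 2, 0], by decide⟩
    exact this x
  obtain ⟨g, hg⟩ := hs
  obtain ⟨φ, p1, p2, p3⟩ := unit_flow G (fun d => g (c d)) (fun d => by simp only [hc.1])
    (fun v i j hij h => hc.2 v i j hij (hg _ _ (hx _) (hx _) h)) 0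
  obtain ⟨ψ, q1, q2, q3⟩ := unit_flow G (fun d => g (c d)) (fun d => by simp only [hc.1])
    (fun v i j hij h => hc.2 v i j hij (hg _ _ (hx _) (hx _) h)) 1
  have hval : ∀ d, |φ d + 2 * ψ d| ≤ 3 ∧ φ d + 2 * ψ d ≠ 0 := by
    intro d
    obtain ⟨a1, a2⟩ := p3 d
    obtain ⟨b1, b2⟩ := q3 d
    by_cases h0 : g (c d) = 0
    · have hne : g (c d) ≠ 1 := by rw [h0]; decide
      rw [a1 h0]
      rcases b2 hne with h | h <;> rw [h] <;> norm_num
    · by_cases h1 : g (c d) = 1
      · rw [b1 h1]
        rcases a2 h0 with h | h <;> rw [h] <;> norm_num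
      · rcases a2 h0 with h | h <;> rcases b2 h1 with h' | h' <;> rw [h, h'] <;> norm_num
  refine ⟨fun d => φ d + 2 * ψ d, ⟨?_, fun d => (hval d).1, ?_⟩, fun d => (hval d).2⟩
  · intro d; simp only [p1, q1]; ring
  · intro v
    rw [Finset.sum_add_distrib, ← Finset.mul_sum, p2, q2]; ring

end tutte

/-! ### No colour class of a proper 4-edge-colouring has exactly one edge -/

section parity
variable {V : Type} [Fintype V] [DecidableEq V] (G : CubicGraph V)

/-- the four colours as the elements of the Klein four-group -/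
def kl (a : Fin 4) : ZMod 2 × ZMod 2 := ![(0, 0), (0, 1), (1, 0), (1, 1)] a

theorem kl_loc : ∀ (x m : Fin 4) (i j : Fin 3) (a b e : Fin 4), i ≠ j ∧ a ≠ b ∧ a ≠ e ∧ b ≠ e ∧
    (![a, b, e] : Fin 3 → Fin 4) i = x ∧ (![a, b, e] : Fin 3 → Fin 4) j = m →
    kl x + kl m ≠ (kl x + kl a) + (kl x + kl b) + (kl x + kl e) := by decide +kernel

theorem not_one (c : V × Fin 3 → Fin 4) (hc : G.ProperColouring c) (x : Fin 4)
    (h : #{d : V × Fin 3 | c d = x} = 2) : ∃ c', G.ProperColouring c' ∧ ∀ d, c' d ≠ x := by
  classical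
  obtain ⟨d0, hd0⟩ : ∃ d0, c d0 = x := by
    by_contra hcon
    push Not at hcon
    rw [Finset.filter_false_of_mem (fun d _ => hcon d)] at h
    simp at h
  have hset : (univ.filter fun d : V × Fin 3 => c d = x) = {d0, G.inv d0} := by
    symm
    apply Finset.eq_of_subset_of_card_le
    · intro d hd
      simp only [mem_insert, mem_singleton] at hd
      simp only [mem_filter, mem_univ, true_and]
      rcases hd with rfl | rfl
      · exact hd0
      · rw [hc.1, hd0]
    · rw [h, Finset.card_pair (G.inv_ne d0).symm]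
  have hmem : ∀ d, c d = x ↔ d = d0 ∨ d = G.inv d0 := by
    intro d
    have : d ∈ (univ.filter fun d : V × Fin 3 => c d = x) ↔ d ∈ ({d0, G.inv d0} : Finset _) := by
      rw [hset]
    simpa using this
  let χ : Fin 4 → ZMod 2 × ZMod 2 := fun a => kl x + kl a
  let S : V → ZMod 2 × ZMod 2 := fun v => ∑ i, χ (c (v, i))
  have two : ∀ z : ZMod 2 × ZMod 2, z + z = 0 := by decide
  have tot : ∑ v, S v = 0 := by
    have e : ∑ v, S v = ∑ d : V × Fin 3, χ (c d) := by
      rw [Fintype.sum_prod_type]
    rw [e]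
    apply Finset.sum_involution (fun d _ => G.inv d)
    · intro d _; rw [hc.1]; exact two _
    · intro d _ _; exact G.inv_ne d
    · intro d _; exact mem_univ _
    · intro d _; exact G.inv_inv d
  have S0 : ∀ v, v ≠ d0.1 → v ≠ (G.inv d0).1 → S v = 0 := by
    intro v hv1 hv2
    have hx : ∀ i, c (v, i) ≠ x := by
      intro i hi
      rcases (hmem _).1 hi with h | h
      · exact hv1 (congrArg Prod.fst h)
      · exact hv2 (congrArg Prod.fst h)
    change ∑ i, (kl x + kl (c (v, i))) = 0
    rw [Fin.sum_univ_three]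
    have : ∀ x a b e : Fin 4, a ≠ x → b ≠ x → e ≠ x → a ≠ b → a ≠ e → b ≠ e →
      kl x + kl a + (kl x + kl b) + (kl x + kl e) = 0 := by decide +kernel
    exact this _ _ _ _ (hx 0) (hx 1) (hx 2) (hc.2 v 0 1 (by decide)) (hc.2 v 0 2 (by decide))
      (hc.2 v 1 2 (by decide))
  have huw : d0.1 ≠ (G.inv d0).1 := by
    intro hE
    have hne : d0.2 ≠ (G.inv d0).2 := fun h2 => G.inv_ne d0 (Prod.ext hE h2).symm
    have := hc.2 d0.1 d0.2 (G.inv d0).2 hne
    apply this
    have e1 : (d0.1, d0.2) = d0 := rfl
    have e2 : (d0.1, (G.inv d0).2) = G.inv d0 := by rw [hE]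
    rw [e1, e2, hc.1]
  have hS : S d0.1 = S (G.inv d0).1 := by
    have e : ∑ v, S v = S d0.1 + S (G.inv d0).1 := by
      rw [← Finset.sum_pair huw]
      symm
      apply Finset.sum_subset (subset_univ _)
      intro v _ hv
      simp only [mem_insert, mem_singleton, not_or] at hv
      exact S0 v hv.1 hv.2
    rw [tot] at e
    have h' : ∀ a b : ZMod 2 × ZMod 2, 0 = a + b → a = b := by decide
    exact h' _ _ e
  obtain ⟨m, hm⟩ : ∃ m : Fin 4, χ m = S d0.1 := by
    have : ∀ (x : Fin 4) (z : ZMod 2 × ZMod 2), ∃ m : Fin 4, kl x + kl m = z := by decide +kernel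
    exact this _ _
  -- the local check at the ends of the edge
  have loc : ∀ v i j, i ≠ j → c (v, i) = x → χ m = S v → c (v, j) ≠ m := by
    intro v i j hij hi hSv hj
    have e3 : ∀ i : Fin 3, (![c (v, 0), c (v, 1), c (v, 2)] : Fin 3 → Fin 4) i = c (v, i) := by
      intro i; fin_cases i <;> rfl
    apply kl_loc x m i j (c (v, 0)) (c (v, 1)) (c (v, 2)) ⟨hij, hc.2 v 0 1 (by decide),
      hc.2 v 0 2 (by decide), hc.2 v 1 2 (by decide), by rw [e3]; exact hi, by rw [e3]; exact hj⟩
    · have : χ m = ∑ i, (kl x + kl (c (v, i))) := hSv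
      rw [Fin.sum_univ_three] at this
      exact this
  have hmx : m ≠ x := by
    rintro rfl
    have l : ∀ (x : Fin 4) (i : Fin 3) (a b e : Fin 4), a ≠ b → a ≠ e → b ≠ e →
        (![a, b, e] : Fin 3 → Fin 4) i = x →
        kl x + kl x ≠ (kl x + kl a) + (kl x + kl b) + (kl x + kl e) := by decide +kernel
    have e3 : ∀ i : Fin 3, (![c (d0.1, 0), c (d0.1, 1), c (d0.1, 2)] : Fin 3 → Fin 4) i
        = c (d0.1, i) := by
      intro i; fin_cases i <;> rfl
    apply l m d0.2 (c (d0.1, 0)) (c (d0.1, 1)) (c (d0.1, 2)) (hc.2 _ 0 1 (by decide))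
      (hc.2 _ 0 2 (by decide)) (hc.2 _ 1 2 (by decide))
    · rw [e3]; exact hd0
    · have : χ m = ∑ i, (kl m + kl (c (d0.1, i))) := hm
      rw [Fin.sum_univ_three] at this
      exact this
  have hSx : ∀ v i, c (v, i) = x → χ m = S v := by
    intro v i hi
    rcases (hmem _).1 hi with h | h
    · have : v = d0.1 := congrArg Prod.fst h
      rw [this]; exact hm
    · have : v = (G.inv d0).1 := congrArg Prod.fst h
      rw [this, ← hS]; exact hm
  refine ⟨fun d => if c d = x then m else c d, ⟨?_, ?_⟩, ?_⟩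
  · intro d; simp only [hc.1]
  · intro v i j hij
    by_cases hi : c (v, i) = x
    · have hj : c (v, j) ≠ x := fun hj => hc.2 v i j hij (hi.trans hj.symm)
      simp only [hi, hj, if_true, if_false]
      exact (loc v i j hij hi (hSx v i hi)).symm
    · by_cases hj : c (v, j) = x
      · simp only [hi, hj, if_true, if_false]
        exact loc v j i hij.symm hj (hSx v j hj)
      · simp only [hi, hj, if_false]
        exact hc.2 v i j hij
  · intro d
    by_cases hd : c d = x
    · simp only [hd, if_true]; exact hmx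
    · simp only [hd, if_false]; exact hd

/-- If every 4-flow has a zero edge, then every colour class of every proper 4-edge-colouring has
at least two edges. -/
theorem two_le (hz : ∀ φ, G.FourFlow φ → ∃ d, φ d = 0) (c : V × Fin 3 → Fin 4)
    (hc : G.ProperColouring c) (x : Fin 4) (k : ℕ) (hk : 2 * k = #{d : V × Fin 3 | c d = x}) :
    2 ≤ k := by
  have no : ∀ c' : V × Fin 3 → Fin 4, G.ProperColouring c' → ¬ ∀ d, c' d ≠ x := by
    intro c' hc' hx
    obtain ⟨φ, h1, h2⟩ := flow_of_colouring G c' hc' x hx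
    obtain ⟨d, hd⟩ := hz φ h1
    exact h2 d hd
  by_contra hcon
  have hk' : k = 0 ∨ k = 1 := by omega
  rcases hk' with rfl | rfl
  · apply no c hc
    intro d hd
    have : (0 : ℕ) < #{d : V × Fin 3 | c d = x} :=
      Finset.card_pos.2 ⟨d, by simpa using hd⟩
    omega
  · obtain ⟨c', h1, h2⟩ := not_one G c hc x (by omega)
    exact no c' h1 h2

end parity

/-! ### The family -/

/-- a 4-flow on the block, with exactly one zero edge -/
def zflow (d : Fin 12 × Fin 3) : ℤ := ([1, -3, 2, 1, 1, -2, -2, 2, 0, 3, -1, -2, -2, -1, 3, -1, -1,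
  2, 2, 1, -3, 0, 3, -3, -3, 1, 2, 2, -3, 1, -2, 3, -1, 3, -2, -1] : List ℤ).getD
    (3 * d.1.val + d.2.val) 0

/-- the further properties of the graphs of the family -/
structure More {V : Type} [Fintype V] [DecidableEq V] (G : CubicGraph V) (v : V) (n : ℕ) :
    Prop where
  good : Good G v n
  card : Fintype.card V + 2 = 12 * n
  con : Connected G
  simple : Simple G
  up : ∃ φ : V × Fin 3 → ℤ, (∀ d, φ (G.inv d) = - φ d) ∧ (∀ d, |φ d| ≤ 3) ∧
    (∀ w, ∑ i, φ (w, i) = 0) ∧ (∀ i, φ (v, i) = fpat i) ∧ #{d : V × Fin 3 | φ d = 0} = 2 * n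
  res : ∃ (c : V × Fin 3 → Fin 4) (x : Fin 4), G.ProperColouring c ∧
    2 * 2 = #{d : V × Fin 3 | c d = x}

section family
variable {V : Type} [Fintype V] [DecidableEq V] {G : CubicGraph V} {v : V} {n : ℕ}

theorem more0 : More P0 0 1 := by
  refine ⟨good0, by simp, ?_, ?_, ?_, ?_⟩
  · intro f hf
    have h : ∀ d, f (pinv d).1 ↔ f d.1 := hf
    have e1 : f 1 ↔ f 0 := h (0, 0)
    have e2 : f 2 ↔ f 1 := h (1, 1)
    have e3 : f 3 ↔ f 2 := h (2, 1)
    have e4 : f 4 ↔ f 3 := h (3, 1)
    have e5 : f 5 ↔ f 0 := h (0, 2)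
    have e6 : f 6 ↔ f 1 := h (1, 2)
    have e7 : f 7 ↔ f 2 := h (2, 2)
    have e8 : f 8 ↔ f 3 := h (3, 2)
    have e9 : f 9 ↔ f 4 := h (4, 2)
    have all : ∀ x, f x ↔ f 0 := by
      intro x
      fin_cases x
      · exact Iff.rfl
      · exact e1
      · exact e2.trans e1
      · exact e3.trans (e2.trans e1)
      · exact e4.trans (e3.trans (e2.trans e1))
      · exact e5
      · exact e6.trans e1
      · exact e7.trans (e2.trans e1)
      · exact e8.trans (e3.trans (e2.trans e1))
      · exact e9.trans (e4.trans (e3.trans (e2.trans e1)))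
    intro x y
    exact (all x).trans (all y).symm
  · refine ⟨by decide +kernel, by decide +kernel⟩
  · exact ⟨fun d => ([1, 1, -2, -1, -2, 3, 2, -3, 1, 3, -2, -1, -1, 2, -1, 2, -3, 1, -3, 0, 3, -1,
      3, -2, 1, -1, 0, 1, -3, 2] : List ℤ).getD (3 * d.1.val + d.2.val) 0, by decide +kernel,
      by decide +kernel, by decide +kernel, by decide +kernel, by decide +kernel⟩
  · exact ⟨fun d => fn4 [0, 1, 2, 0, 1, 2, 1, 0, 2, 0, 2, 1, 1, 2, 0, 2, 0, 3, 2, 0, 1, 2, 0, 3, 1,
      3, 0, 0, 1, 3] (3 * d.1.val + d.2.val), 3, ⟨by decide +kernel, by decide +kernel⟩,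
      by decide +kernel⟩

theorem ext_con (hv : ∀ i, (G.inv (v, i)).1 ≠ v) (h : Connected G) :
    Connected (ext G v hv) := by
  intro f hf
  have hf' : ∀ d, f (extInv G v d).1 ↔ f d.1 := hf
  have hint : ∀ d d', tab d = .int d' → (f (Sum.inr d'.1) ↔ f (Sum.inr d.1)) := by
    intro d d' ht
    have := hf' (Sum.inr d.1, d.2)
    rwa [extInv_int G v ht] at this
  -- the block is connected
  have e1 : f (Sum.inr 3) ↔ f (Sum.inr 0) := hint (0, 1) (3, 0) (by decide +kernel)
  have e2 : f (Sum.inr 4) ↔ f (Sum.inr 0) := hint (0, 2) (4, 0) (by decide +kernel)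
  have e3 : f (Sum.inr 1) ↔ f (Sum.inr 3) := hint (3, 1) (1, 1) (by decide +kernel)
  have e4 : f (Sum.inr 6) ↔ f (Sum.inr 1) := hint (1, 2) (6, 0) (by decide +kernel)
  have e5 : f (Sum.inr 2) ↔ f (Sum.inr 3) := hint (3, 2) (2, 1) (by decide +kernel)
  have e6 : f (Sum.inr 7) ↔ f (Sum.inr 2) := hint (2, 2) (7, 0) (by decide +kernel)
  have e7 : f (Sum.inr 8) ↔ f (Sum.inr 4) := hint (4, 2) (8, 0) (by decide +kernel)
  have e8 : f (Sum.inr 10) ↔ f (Sum.inr 5) := hint (5, 2) (10, 0) (by decide +kernel)
  have e9 : f (Sum.inr 5) ↔ f (Sum.inr 6) := hint (6, 1) (5, 1) (by decide +kernel)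
  have e10 : f (Sum.inr 11) ↔ f (Sum.inr 6) := hint (6, 2) (11, 0) (by decide +kernel)
  have e11 : f (Sum.inr 9) ↔ f (Sum.inr 7) := hint (7, 1) (9, 1) (by decide +kernel)
  have a3 := e1
  have a4 := e2
  have a1 := e3.trans a3
  have a6 := e4.trans a1
  have a2 := e5.trans a3
  have a7 := e6.trans a2
  have a8 := e7.trans a4
  have a5 := e9.trans a6
  have a10 := e8.trans a5
  have a11 := e10.trans a6
  have a9 := e11.trans a7
  have all : ∀ a, f (Sum.inr a) ↔ f (Sum.inr 0) := by
    intro a
    fin_cases a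
    · exact Iff.rfl
    · exact a1
    · exact a2
    · exact a3
    · exact a4
    · exact a5
    · exact a6
    · exact a7
    · exact a8
    · exact a9
    · exact a10
    · exact a11
  have hv0 : f (Sum.inl v) ↔ f (Sum.inr 0) := by
    have := hf' (Sum.inl v, 0)
    rw [extInv_v] at this
    exact this.symm.trans (all _)
  have near : ∀ w i, (G.inv (w, i)).1 = v → (f (Sum.inl w) ↔ f (Sum.inl v)) := by
    intro w i hwi
    by_cases hw : w = v
    · rw [hw]
    · have hk : G.inv (w, i) = (v, (G.inv (w, i)).2) := by rw [← hwi]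
      have := hf' (Sum.inl w, i)
      rw [extInv_near G v hw hk] at this
      exact this.symm.trans ((all _).trans hv0.symm)
  have hG := h (fun w => f (Sum.inl w)) (by
    rintro ⟨w, i⟩
    by_cases hw : w = v
    · have := near (G.inv (w, i)).1 (G.inv (w, i)).2 (by rw [Prod.mk.eta, G.inv_inv]; exact hw)
      rw [← hw] at this
      exact this
    · by_cases hn : (G.inv (w, i)).1 = v
      · have := near w i hn
        rw [← hn] at this
        exact this.symm
      · have := hf' (Sum.inl w, i)
        rwa [extInv_far G v hw hn] at this)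
  have fin : ∀ x, f x ↔ f (Sum.inr 0) := by
    rintro (w | a)
    · exact (hG w v).trans hv0
    · exact all a
  intro x y
  exact (fin x).trans (fin y).symm

theorem ext_simple (hs : Simple G) : Simple (ext G v (fun i => hs.1 (v, i))) := by
  have hv : ∀ i, (G.inv (v, i)).1 ≠ v := fun i => hs.1 (v, i)
  have tb1 : ∀ d d', tab d = .int d' → d'.1 ≠ d.1 := by decide +kernel
  have tb2 : ∀ a i j d d', i ≠ j → tab (a, i) = .int d → tab (a, j) = .int d' → d.1 ≠ d'.1 := by
    decide +kernel
  have tb3 : ∀ a i j k k', tab (a, i) = .left k → tab (a, j) = .left k' → i = j := by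
    decide +kernel
  have tb4 : ∀ a i j k k', tab (a, i) = .right k → tab (a, j) = .right k' → i = j := by
    decide +kernel
  have rpi : ∀ k k', (rp k).1 = (rp k').1 → k = k' := by decide +kernel
  constructor
  · rintro ⟨w | a, i⟩ h
    · change (extInv G v (Sum.inl w, i)).1 = Sum.inl w at h
      by_cases hw : w = v
      · subst hw; rw [extInv_v] at h; simp at h
      · by_cases hn : (G.inv (w, i)).1 = v
        · have hk : G.inv (w, i) = (v, (G.inv (w, i)).2) := by rw [← hn]
          rw [extInv_near G v hw hk] at h; simp at h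
        · rw [extInv_far G v hw hn] at h
          exact hs.1 (w, i) (Sum.inl_injective h)
    · have h' : (extInv G v (Sum.inr (a, i).1, (a, i).2)).1 = Sum.inr a := h
      match ht : tab (a, i) with
      | .int d' =>
        rw [extInv_int G v ht] at h'
        exact tb1 _ _ ht (Sum.inr_injective h')
      | .left k => rw [extInv_left G v ht] at h'; simp at h'
      | .right k => rw [extInv_right G v ht] at h'; simp at h'
  · rintro (w | a) i j hij h
    · change (extInv G v (Sum.inl w, i)).1 = (extInv G v (Sum.inl w, j)).1 at h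
      by_cases hw : w = v
      · subst hw
        rw [extInv_v, extInv_v] at h
        exact hij (rpi _ _ (Sum.inr_injective h))
      · by_cases hi : (G.inv (w, i)).1 = v
        · have hj : (G.inv (w, j)).1 ≠ v := fun hj => hs.2 w i j hij (hi.trans hj.symm)
          have hk : G.inv (w, i) = (v, (G.inv (w, i)).2) := by rw [← hi]
          rw [extInv_near G v hw hk, extInv_far G v hw hj] at h
          simp at h
        · by_cases hj : (G.inv (w, j)).1 = v
          · have hk : G.inv (w, j) = (v, (G.inv (w, j)).2) := by rw [← hj]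
            rw [extInv_near G v hw hk, extInv_far G v hw hi] at h
            simp at h
          · rw [extInv_far G v hw hi, extInv_far G v hw hj] at h
            exact hs.2 w i j hij (Sum.inl_injective h)
    · have h' : (extInv G v (Sum.inr (a, i).1, (a, i).2)).1
          = (extInv G v (Sum.inr (a, j).1, (a, j).2)).1 := h
      match ht : tab (a, i), ht' : tab (a, j) with
      | .int d, .int d' =>
        rw [extInv_int G v ht, extInv_int G v ht'] at h'
        exact tb2 _ _ _ _ _ hij ht ht' (Sum.inr_injective h')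
      | .int d, .left k' => rw [extInv_int G v ht, extInv_left G v ht'] at h'; simp at h'
      | .int d, .right k' => rw [extInv_int G v ht, extInv_right G v ht'] at h'; simp at h'
      | .left k, .int d' => rw [extInv_left G v ht, extInv_int G v ht'] at h'; simp at h'
      | .left k, .left k' => exact hij (tb3 _ _ _ _ _ ht ht')
      | .left k, .right k' =>
        rw [extInv_left G v ht, extInv_right G v ht'] at h'
        exact hv k (Sum.inl_injective h')
      | .right k, .int d' => rw [extInv_right G v ht, extInv_int G v ht'] at h'; simp at h'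
      | .right k, .left k' =>
        rw [extInv_right G v ht, extInv_left G v ht'] at h'
        exact hv k' (Sum.inl_injective h').symm
      | .right k, .right k' => exact hij (tb4 _ _ _ _ _ ht ht')

theorem More.step (h : More G v n) : More (ext G v h.good.hv) (Sum.inl v) (n + 1) := by
  refine ⟨h.good.step, ?_, ext_con _ h.con, ext_simple h.simple, ?_, ?_⟩
  · have := h.card
    rw [Fintype.card_sum, Fintype.card_fin]; omega
  · obtain ⟨φ, f1, f2, f3, f4, f5⟩ := h.up
    refine ⟨glue v φ fpat zflow, ?_, ?_, ?_, ?_, ?_⟩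
    · intro d
      exact glue_rel G v h.good.hv (fun x => -x) (fun x => neg_neg x) f1 f4 (by decide +kernel)
        (by decide +kernel) (by decide +kernel) d
    · rintro ⟨w | a, i⟩
      · by_cases hw : w = v
        · subst hw
          have := f2 (w, i)
          rw [f4] at this
          simpa only [glue, if_true] using this
        · simpa only [glue, hw, if_false] using f2 (w, i)
      · have : ∀ d, |zflow d| ≤ 3 := by decide +kernel
        exact this _
    · rintro (w | a)
      · by_cases hw : w = v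
        · subst hw
          have := f3 w
          simp only [f4] at this
          simpa only [glue, if_true] using this
        · simpa only [glue, hw, if_false] using f3 w
      · have : ∀ a, ∑ i, zflow (a, i) = 0 := by decide +kernel
        exact this a
    · intro i; simp [glue]
    · rw [card_split]
      have e1 : #{d : V × Fin 3 | glue v φ fpat zflow (Sum.inl d.1, d.2) = 0}
          = #{d : V × Fin 3 | φ d = 0} := by
        congr 1
        apply Finset.filter_congr
        rintro ⟨w, i⟩ _
        by_cases hw : w = v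
        · subst hw; simp only [glue, if_true, f4]
        · simp only [glue, hw, if_false]
      have e2 : #{d : Fin 12 × Fin 3 | glue v φ fpat zflow (Sum.inr d.1, d.2) = 0} = 2 := by
        change #{d : Fin 12 × Fin 3 | zflow d = 0} = 2
        decide +kernel
      rw [e1, e2, f5]; ring
  · obtain ⟨c, c1, c2, c3, c4⟩ := h.good.col
    refine ⟨glue v c cpat2 bcol2, 3, ⟨?_, ?_⟩, ?_⟩
    · intro d
      exact glue_rel G v h.good.hv id (fun _ => rfl) c1 c3 (by decide +kernel) (by decide +kernel)
        (by decide +kernel) d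
    · rintro (w | a) i j hij
      · by_cases hw : w = v
        · have : ∀ i j, i ≠ j → cpat2 i ≠ cpat2 j := by decide +kernel
          subst hw
          simpa only [glue, if_true] using this i j hij
        · simp only [glue, hw, if_false]
          exact c2 w hw i j hij
      · have : ∀ a i j, i ≠ j → bcol2 (a, i) ≠ bcol2 (a, j) := by decide +kernel
        exact this a i j hij
    · rw [card_split]
      have e1 : #{d : V × Fin 3 | glue v c cpat2 bcol2 (Sum.inl d.1, d.2) = 3}
          = #{d : V × Fin 3 | c d = 3} := by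
        congr 1
        apply Finset.filter_congr
        rintro ⟨w, i⟩ _
        by_cases hw : w = v
        · subst hw
          have n1 : ∀ i, cpat i ≠ 3 := by decide +kernel
          have n2 : ∀ i, cpat2 i ≠ 3 := by decide +kernel
          simp only [glue, if_true, c3]
          exact ⟨fun e => absurd e (n2 i), fun e => absurd e (n1 i)⟩
        · simp only [glue, hw, if_false]
      have e2 : #{d : Fin 12 × Fin 3 | glue v c cpat2 bcol2 (Sum.inr d.1, d.2) = 3} = 2 := by
        change #{d : Fin 12 × Fin 3 | bcol2 d = 3} = 2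
        decide +kernel
      rw [e1, e2, c4]

theorem More.values (h : More G v (n + 1)) :
    G.Bridgeless ∧ G.resistance = 2 ∧ G.flowResistance = n + 1 := by
  refine ⟨?_, ?_, ?_⟩
  · obtain ⟨φ, f1, f2, f3, -⟩ := h.good.flow
    exact bridgeless_of_flow _ f1 f2 f3
  · obtain ⟨c, x, h1, h2⟩ := h.res
    apply le_antisymm
    · exact Nat.sInf_le ⟨c, x, h1, h2⟩
    · apply le_csInf
      · exact ⟨2, c, x, h1, h2⟩
      · rintro k ⟨c', x', h3, h4⟩
        refine two_le G ?_ c' h3 x' k h4
        intro φ hφ
        have := h.good.zeros φ hφ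
        obtain ⟨d, hd⟩ := Finset.card_pos.1 (show 0 < #{d : V × Fin 3 | φ d = 0} by omega)
        exact ⟨d, by simpa using hd⟩
  · obtain ⟨φ, f1, f2, f3, f4, f5⟩ := h.up
    apply le_antisymm
    · exact Nat.sInf_le ⟨φ, ⟨f1, f2, f3⟩, f5.symm⟩
    · apply le_csInf
      · exact ⟨n + 1, φ, ⟨f1, f2, f3⟩, f5.symm⟩
      · rintro k ⟨ψ, h3, h4⟩
        have := h.good.zeros ψ h3
        omega

end family

theorem exists_more (n : ℕ) : ∃ (V : Type) (_ : Fintype V) (_ : DecidableEq V)
    (G : CubicGraph V) (v : V), More G v (n + 1) := by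
  induction n with
  | zero => exact ⟨Fin 10, inferInstance, inferInstance, P0, 0, more0⟩
  | succ n ih =>
    obtain ⟨V, _, _, G, v, h⟩ := ih
    exact ⟨V ⊕ Fin 12, inferInstance, inferInstance, _, _, h.step⟩

/-- For every `N ≥ 1` there is a connected simple bridgeless cubic graph on `12 N - 2` vertices
with resistance exactly `2` and flow resistance exactly `N`. -/
theorem result (N : ℕ) (hN : 1 ≤ N) : ∃ (V : Type) (_ : Fintype V) (_ : DecidableEq V)
    (G : CubicGraph V), Fintype.card V = 12 * N - 2 ∧ Connected G ∧ Simple G ∧ G.Bridgeless ∧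
      G.resistance = 2 ∧ G.flowResistance = N := by
  obtain ⟨n, rfl⟩ : ∃ n, N = n + 1 := ⟨N - 1, by omega⟩
  obtain ⟨V, _, _, G, v, h⟩ := exists_more n
  exact ⟨V, inferInstance, inferInstance, G, by have := h.card; omega, h.con, h.simple,
    h.values.1, h.values.2.1, h.values.2.2⟩

end Pool.Agent.Results.MP_c254db_co.ExactValues
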